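import Pool.Agent.W541.DL.Stm

set_option autoImplicit false

namespace Pool.Agent.W89.DL.FWD

open MeasureTheory ProbabilityTheory Filter Topology
open Pool.Agent.W541.DL

/-- measurability of the centred passage values -/
theorem meas_bar (hM : S_MEASK) {Ω : Type} (F : MeasurableSpace Ω) (W : ℕ → ℝ → Ω → ℝ)
    (n a m : ℕ) (s t : ℝ) (hc : ∀ k ω, Continuous (fun t => W k t ω))
    (h : ∀ k, k < m → ∀ t, Measurable[F] (W (a + k) t)) :
    Measurable[F] (fun ω => bar (env W ω) n a m s t) := by
  have h1 : Measurable[F] (fun ω => supK (env (fun k => W (a + k)) ω) m (paths m s t)) := by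
    refine hM Ω F (fun k => W (a + k)) m (paths m s t) (fun k ω => hc (a + k) ω) ?_
    intro τ _ k hk
    exact (h k hk _).sub (h k hk _)
  have h2 : (fun ω => bar (env W ω) n a m s t) = fun ω =>
      (n : ℝ) ^ ((1 : ℝ) / 6) * (supK (env (fun k => W (a + k)) ω) m (paths m s t)
        - Real.sqrt n * (t - s) - (m : ℝ) / Real.sqrt n) := rfl
  rw [h2]
  exact ((h1.sub_const _).sub_const _).const_mul _

theorem main (hS : S_SUPER) (hD : S_DIAG) (hO : S_OTT) (hL : S_LINES) (hM : S_MEASK) :
    S_FWD := by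
  intro Ω mΩ P W c n x γ l hW hc hn
  classical
  have hP : IsProbabilityMeasure P := hW.gauss.isProbabilityMeasure
  have hn0 : (0 : ℝ) < n := by exact_mod_cast hn
  have hsq : (0 : ℝ) < Real.sqrt n := Real.sqrt_pos.2 hn0
  set G : ℕ → MeasurableSpace Ω := fun j =>
    ⨆ q : {q : ℕ × ℝ // q.1 < j + 1}, MeasurableSpace.comap (W q.1.1 q.1.2) inferInstance with hG
  set F : ℕ → Ω → ℝ := fun j ω => if 0 ≤ (j : ℝ) / n + γ then
    bar (env W ω) n 0 (j + 1) x (x + j / n + γ) else l - 1 with hF
  set E : ℕ → Ω → ℝ := fun j ω => bar (env W ω) n (j + 1) (n - 1 - j) (x + j / n + γ)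
    (x + j / n + γ + ((n - 1 - j : ℕ) : ℝ) / n) with hE
  set Full : Ω → ℝ := fun ω => bar (env W ω) n 0 n x (x + (1 - 1 / n + γ)) with hFull
  have hGm : ∀ j k : ℕ, k < j + 1 → ∀ t, Measurable[G j] (W k t) := by
    intro j k hk t
    have : MeasurableSpace.comap (W k t) inferInstance ≤ G j :=
      le_iSup (fun q : {q : ℕ × ℝ // q.1 < j + 1} =>
        MeasurableSpace.comap (W q.1.1 q.1.2) inferInstance) ⟨(k, t), hk⟩
    exact (comap_measurable (W k t)).mono this le_rfl
  have key := hO Ω P n c l G F E Full hP ?_ ?_ ?_ ?_ ?_ ?_ ?_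
  · refine le_trans (measureReal_mono ?_) key
    rintro ω ⟨j, hj, h0, h1⟩
    refine ⟨j, hj, ?_⟩
    simp only [hF, if_pos h0]
    exact h1
  · -- monotone
    intro i j hij
    refine iSup_le fun q => ?_
    exact le_iSup (fun q : {q : ℕ × ℝ // q.1 < j + 1} =>
        MeasurableSpace.comap (W q.1.1 q.1.2) inferInstance)
        ⟨q.1, lt_of_lt_of_le q.2 (by omega)⟩
  · intro j
    refine iSup_le fun q => ?_
    exact (hW.meas _ _).comap_le
  · intro j _
    by_cases h0 : 0 ≤ (j : ℝ) / n + γ
    · simp only [hF, if_pos h0]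
      refine meas_bar hM (G j) W n 0 (j + 1) _ _ hW.cont ?_
      intro k hk t
      rw [zero_add]
      exact hGm j k hk t
    · simp only [hF, if_neg h0]
      exact measurable_const
  · intro j _
    exact meas_bar hM mΩ W n _ _ _ _ hW.cont (fun k _ t => hW.meas _ _)
  · intro j _
    refine indep_of_indep_of_le_right (hL Ω P W (j + 1) hW) ?_
    have : Measurable[⨆ q : {q : ℕ × ℝ // j + 1 ≤ q.1},
        MeasurableSpace.comap (W q.1.1 q.1.2) inferInstance] (E j) := by
      refine meas_bar hM _ W n _ _ _ _ hW.cont ?_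
      intro k _ t
      have h3 : MeasurableSpace.comap (W (j + 1 + k) t) inferInstance ≤
          ⨆ q : {q : ℕ × ℝ // j + 1 ≤ q.1},
            MeasurableSpace.comap (W q.1.1 q.1.2) inferInstance :=
        le_iSup (fun q : {q : ℕ × ℝ // j + 1 ≤ q.1} =>
          MeasurableSpace.comap (W q.1.1 q.1.2) inferInstance) ⟨(j + 1 + k, t), by simp⟩
      exact (comap_measurable (W (j + 1 + k) t)).mono h3 le_rfl
    exact this.comap_le
  · intro j hj
    exact hD Ω P W c n (j + 1) (n - 1 - j) (x + j / n + γ) hW hc hn (by omega)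
  · refine Filter.Eventually.of_forall fun ω j hj hlj => ?_
    by_cases h0 : 0 ≤ (j : ℝ) / n + γ
    · simp only [hF, if_pos h0] at hlj ⊢
      simp only [hE, hFull]
      have hcast : ((n - 1 - j : ℕ) : ℝ) = n - 1 - j := by
        have : n - 1 - j + (1 + j) = n := by omega
        have h' : ((n - 1 - j : ℕ) : ℝ) + (1 + j) = n := by exact_mod_cast this
        linarith
      have hr : x + j / n + γ + ((n - 1 - j : ℕ) : ℝ) / n = x + (1 - 1 / n + γ) := by
        rw [hcast]; field_simp; ring
      have hsup := hS (env W ω) (j + 1) (n - 1 - j) x (x + j / n + γ)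
        (x + j / n + γ + ((n - 1 - j : ℕ) : ℝ) / n) (fun k => hW.cont k ω) (by linarith)
        (by have : (0 : ℝ) ≤ ((n - 1 - j : ℕ) : ℝ) / n := by positivity
            linarith) (by intro h; omega) (by intro h; rw [h]; simp)
      rw [show j + 1 + (n - 1 - j) = n by omega] at hsup
      rw [hr] at hsup ⊢
      unfold bar
      rw [← mul_add]
      refine mul_le_mul_of_nonneg_left ?_ (by positivity)
      simp only [zero_add]
      rw [hcast]
      push_cast
      have e1 : ((j : ℝ) + 1) / Real.sqrt n + ((n : ℝ) - 1 - j) / Real.sqrt n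
          = (n : ℝ) / Real.sqrt n := by
        rw [← add_div]; ring_nf
      nlinarith [hsup, e1]
    · exfalso
      simp only [hF, if_neg h0] at hlj
      linarith

end Pool.Agent.W89.DL.FWD
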